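import Mathlib
import Pool.Agent.Q80.ChebTest

/-!
# `√k / k!` is a multiplier sequence
-/

open Polynomial MeasureTheory Set Filter Topology

namespace Pool.Agent.Results.MP_21a1fd_an.SqrtSequence

open Q80.RR

/-- `T[x^k] = √k / k! * x^k` -/
noncomputable def T (p : ℝ[X]) : ℝ[X] :=
  ∑ k ∈ Finset.range (p.natDegree + 1),
    C (Real.sqrt (k : ℝ) / (k.factorial : ℝ) * p.coeff k) * X ^ k

/-! ### the kernel `(v/(e^v-1))^{1/2}` -/

/-- `√(v/(e^v-1))`, with value 1 for `v ≤ 0` -/
noncomputable def kap (v : ℝ) : ℝ := if v ≤ 0 then 1 else Real.sqrt (v / (Real.exp v - 1))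

/-- `- kap'` -/
noncomputable def D (v : ℝ) : ℝ :=
  (v * Real.exp v - (Real.exp v - 1)) / (Real.exp v - 1) ^ 2 / (2 * Real.sqrt (v / (Real.exp v - 1)))

lemma kap_pos {v : ℝ} (hv : 0 < v) : kap v = Real.sqrt (v / (Real.exp v - 1)) := by
  unfold kap; rw [if_neg (not_le.2 hv)]

lemma exp_sub_pos {v : ℝ} (hv : 0 < v) : 0 < Real.exp v - 1 := by
  have := Real.add_one_le_exp v
  linarith

lemma le_exp_sub (v : ℝ) : v ≤ Real.exp v - 1 := by
  have := Real.add_one_le_exp v
  linarith

lemma exp_sub_le (v : ℝ) : Real.exp v - 1 ≤ v * Real.exp v := by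
  have h1 := Real.add_one_le_exp (-v)
  have h2 : Real.exp (-v) * Real.exp v = 1 := by rw [← Real.exp_add]; simp
  nlinarith [Real.exp_pos v]

lemma kap_nonneg (v : ℝ) : 0 ≤ kap v := by
  unfold kap
  split_ifs
  · norm_num
  · exact Real.sqrt_nonneg _

lemma kap_le_one (v : ℝ) : kap v ≤ 1 := by
  unfold kap
  split_ifs with h
  · norm_num
  · push Not at h
    rw [Real.sqrt_le_one]
    exact (div_le_one (exp_sub_pos h)).2 (le_exp_sub v)

lemma kap_meas : Measurable kap := by
  unfold kap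
  apply Measurable.ite measurableSet_Iic measurable_const
  fun_prop

lemma kap_ge {v : ℝ} (hv : 0 ≤ v) : Real.exp (-v) ≤ kap v := by
  rcases hv.eq_or_lt with rfl | hv
  · unfold kap; simp
  rw [kap_pos hv]
  have h0 := exp_sub_pos hv
  have h1 : Real.exp (-v) ≤ v / (Real.exp v - 1) := by
    rw [le_div_iff₀ h0]
    have := exp_sub_le v
    have h2 : Real.exp (-v) * Real.exp v = 1 := by rw [← Real.exp_add]; simp
    calc Real.exp (-v) * (Real.exp v - 1) ≤ Real.exp (-v) * (v * Real.exp v) :=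
          mul_le_mul_of_nonneg_left this (Real.exp_pos _).le
      _ = v * (Real.exp (-v) * Real.exp v) := by ring
      _ = v := by rw [h2, mul_one]
  have h2 : v / (Real.exp v - 1) ≤ 1 := (div_le_one h0).2 (le_exp_sub v)
  have h3 : 0 ≤ v / (Real.exp v - 1) := by positivity
  calc Real.exp (-v) ≤ v / (Real.exp v - 1) := h1
    _ ≤ Real.sqrt (v / (Real.exp v - 1)) := by
      apply Real.le_sqrt_of_sq_le
      nlinarith

lemma kap_cont0 : ContinuousWithinAt kap (Ici 0) 0 := by
  unfold ContinuousWithinAt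
  have h0 : kap 0 = 1 := by unfold kap; simp
  rw [h0]
  have h1 : Tendsto (fun v : ℝ => Real.exp (-v)) (𝓝[Ici 0] 0) (𝓝 1) := by
    have : Continuous (fun v : ℝ => Real.exp (-v)) := by fun_prop
    have h2 := this.tendsto 0
    simp only [neg_zero, Real.exp_zero] at h2
    exact h2.mono_left nhdsWithin_le_nhds
  refine tendsto_of_tendsto_of_tendsto_of_le_of_le' h1 tendsto_const_nhds ?_ ?_
  · filter_upwards [self_mem_nhdsWithin] with v hv
    exact kap_ge hv
  · exact Eventually.of_forall fun v => kap_le_one v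

lemma kap_hasDerivAt {v : ℝ} (hv : 0 < v) : HasDerivAt kap (-D v) v := by
  have h0 := exp_sub_pos hv
  have h1 : HasDerivAt (fun v : ℝ => v / (Real.exp v - 1))
      ((1 * (Real.exp v - 1) - v * Real.exp v) / (Real.exp v - 1) ^ 2) v :=
    (hasDerivAt_id v).div ((Real.hasDerivAt_exp v).sub_const 1) h0.ne'
  have h2 : 0 < v / (Real.exp v - 1) := by positivity
  have h3 := h1.sqrt h2.ne'
  have h4 : kap =ᶠ[𝓝 v] fun v => Real.sqrt (v / (Real.exp v - 1)) := by
    filter_upwards [Ioi_mem_nhds hv] with w hw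
    exact kap_pos hw
  refine (h3.congr_of_eventuallyEq h4).congr_deriv ?_
  unfold D
  ring

lemma D_nonneg {v : ℝ} (hv : 0 < v) : 0 ≤ D v := by
  unfold D
  have h0 := exp_sub_pos hv
  have h1 := exp_sub_le v
  have h2 : 0 ≤ v * Real.exp v - (Real.exp v - 1) := by linarith
  positivity

lemma kap_tendsto : Tendsto kap atTop (𝓝 0) := by
  have h1 : Tendsto (fun v : ℝ => Real.sqrt (v / (Real.exp v - 1))) atTop (𝓝 (Real.sqrt 0)) := by
    apply (Real.continuous_sqrt.tendsto 0).comp
    have h2 := Real.tendsto_pow_mul_exp_neg_atTop_nhds_zero 1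
    have h3 := h2.const_mul 2
    rw [mul_zero] at h3
    refine squeeze_zero' ?_ ?_ h3
    · filter_upwards [eventually_gt_atTop 0] with v hv
      have := exp_sub_pos hv
      positivity
    · filter_upwards [eventually_ge_atTop 1] with v hv
      have h0 := exp_sub_pos (by linarith : 0 < v)
      rw [pow_one, Real.exp_neg, div_le_iff₀ h0]
      have h4 : 2 ≤ Real.exp v := by
        have := Real.add_one_le_exp v
        linarith
      have h5 : Real.exp v * (Real.exp v)⁻¹ = 1 := mul_inv_cancel₀ (Real.exp_pos v).ne'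
      have h6 : (Real.exp v)⁻¹ ≤ 1 / 2 := by
        rw [inv_le_comm₀ (Real.exp_pos v) (by norm_num)]
        norm_num
        exact h4
      calc v = v * 1 := by ring
        _ ≤ v * (2 * (1 - (Real.exp v)⁻¹)) := by
            apply mul_le_mul_of_nonneg_left _ (by linarith)
            linarith
        _ = 2 * (v * (Real.exp v)⁻¹) * (Real.exp v - 1) := by
            linear_combination (-2 * v) * h5
  rw [Real.sqrt_zero] at h1
  refine h1.congr' ?_
  filter_upwards [eventually_gt_atTop 0] with v hv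
  rw [kap_pos hv]

lemma D_int : IntegrableOn D (Ioi 0) := by
  have h1 : IntegrableOn (fun v => -D v) (Ioi 0) :=
    integrableOn_Ioi_deriv_of_nonpos kap_cont0 (fun v hv => kap_hasDerivAt hv)
      (fun v hv => neg_nonpos.2 (D_nonneg hv)) kap_tendsto
  simpa using h1.neg

lemma D_int' {a : ℝ} (ha : 0 ≤ a) : IntegrableOn (fun v => D v * (1 - Real.exp (-(a * v)))) (Ioi 0) := by
  refine Integrable.mono' D_int ?_ ?_
  · apply D_int.aestronglyMeasurable.mul
    exact (by fun_prop : Continuous fun v : ℝ => 1 - Real.exp (-(a * v))).aestronglyMeasurable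
  · filter_upwards [ae_restrict_mem measurableSet_Ioi] with v hv
    have hv' : (0 : ℝ) < v := hv
    have h1 : Real.exp (-(a * v)) ≤ 1 := Real.exp_le_one_iff.2 (by
      have := mul_nonneg ha hv'.le
      linarith)
    have h2 := Real.exp_pos (-(a * v))
    rw [Real.norm_of_nonneg (mul_nonneg (D_nonneg hv') (by linarith))]
    have := D_nonneg hv'
    nlinarith

lemma exp_int {a : ℝ} (ha : 0 < a) : IntegrableOn (fun v : ℝ => Real.exp (-(a * v))) (Ioi 0) := by
  have := exp_neg_integrableOn_Ioi 0 ha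
  simpa [neg_mul] using this

lemma kap_exp_int {a : ℝ} (ha : 0 < a) :
    IntegrableOn (fun v => kap v * Real.exp (-(a * v))) (Ioi 0) := by
  refine Integrable.mono' (exp_int ha) ?_ ?_
  · exact (kap_meas.mul (by fun_prop)).aestronglyMeasurable
  · filter_upwards [ae_restrict_mem measurableSet_Ioi] with v hv
    rw [Real.norm_of_nonneg (mul_nonneg (kap_nonneg v) (Real.exp_pos _).le)]
    have := kap_le_one v
    have h2 := Real.exp_pos (-(a * v))
    nlinarith

/-- integration by parts -/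
lemma inner_id {a : ℝ} (ha : 0 ≤ a) : ∫ v in Ioi (0 : ℝ), D v * (1 - Real.exp (-(a * v))) =
    a * ∫ v in Ioi (0 : ℝ), kap v * Real.exp (-(a * v)) := by
  rcases ha.eq_or_lt with rfl | ha
  · simp
  have hint : IntegrableOn (fun v => a * (kap v * Real.exp (-(a * v))) -
      D v * (1 - Real.exp (-(a * v)))) (Ioi 0) :=
    ((kap_exp_int ha).const_mul a).sub (D_int' ha.le)
  have hE : ∀ v : ℝ, HasDerivAt (fun v : ℝ => 1 - Real.exp (-(a * v))) (a * Real.exp (-(a * v))) v := by
    intro v
    have h1 : HasDerivAt (fun v : ℝ => -(a * v)) (-a) v := by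
      simpa [neg_mul] using (hasDerivAt_id v).const_mul (-a)
    refine (h1.exp.const_sub 1).congr_deriv ?_
    ring
  have h1 : ∫ v in Ioi (0 : ℝ), (a * (kap v * Real.exp (-(a * v))) -
      D v * (1 - Real.exp (-(a * v)))) = 0 - kap 0 * (1 - Real.exp (-(a * 0))) := by
    apply integral_Ioi_of_hasDerivAt_of_tendsto (f := fun v => kap v * (1 - Real.exp (-(a * v))))
    · exact kap_cont0.mul (by fun_prop : Continuous fun v : ℝ => 1 - Real.exp (-(a * v))).continuousWithinAt
    · intro v hv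
      refine ((kap_hasDerivAt hv).mul (hE v)).congr_deriv ?_
      ring
    · exact hint
    · refine squeeze_zero_norm' ?_ kap_tendsto
      filter_upwards [eventually_gt_atTop 0] with v hv
      have h1 : Real.exp (-(a * v)) ≤ 1 := Real.exp_le_one_iff.2 (by
        have := mul_pos ha hv
        linarith)
      have h2 := Real.exp_pos (-(a * v))
      rw [Real.norm_of_nonneg (mul_nonneg (kap_nonneg v) (by linarith))]
      have := kap_nonneg v
      nlinarith
  rw [mul_zero, neg_zero, Real.exp_zero, sub_self, mul_zero, sub_zero,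
    integral_sub ((kap_exp_int ha).const_mul a) (D_int' ha.le), integral_const_mul] at h1
  linarith

/-- the inner sequence satisfies the test -/
lemma inner_good {b : ℝ} (hb : 0 < b) : GoodC (fun k : ℕ => ((k : ℝ) * b) *
    ∫ v in Ioi (0 : ℝ), kap v * Real.exp (-((k : ℝ) * b * v))) := by
  have h1 := goodC_integral (μ := volume.restrict (Ioi (0 : ℝ)))
    (f := fun v (k : ℕ) => D v * (1 - Real.exp (-(b * v)) ^ k)) (fun k => by
      have := D_int' (a := (k : ℝ) * b) (by positivity)
      refine this.congr_fun (fun v _ => ?_) measurableSet_Ioi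
      simp only
      rw [← Real.exp_nat_mul]
      congr 3; ring) (by
      filter_upwards [ae_restrict_mem measurableSet_Ioi] with v hv
      have hv' : (0 : ℝ) < v := hv
      refine goodC_const_mul (goodC_sub_pow ⟨(Real.exp_pos _).le, ?_⟩) (D_nonneg hv')
      apply Real.exp_le_one_iff.2
      have := mul_pos hb hv'
      linarith)
  have h2 : (fun k : ℕ => ((k : ℝ) * b) *
      ∫ v in Ioi (0 : ℝ), kap v * Real.exp (-((k : ℝ) * b * v))) = fun k : ℕ =>
      ∫ v in Ioi (0 : ℝ), D v * (1 - Real.exp (-(b * v)) ^ k) := by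
    funext k
    rw [← inner_id (by positivity : 0 ≤ (k : ℝ) * b)]
    apply setIntegral_congr_fun measurableSet_Ioi
    intro v _
    simp only
    rw [← Real.exp_nat_mul]
    congr 3; ring
  rw [h2]
  exact h1

/-! ### the outer integral -/

/-- the two-variable kernel -/
noncomputable def K (k : ℕ) (t v : ℝ) : ℝ := t ^ ((1 / 2 : ℝ) - 1) * (kap v * Real.exp (-((k : ℝ) * (1 + t) * v)))

lemma K_eq (k : ℕ) (t v : ℝ) : K k t v = (kap v * Real.exp (-((k : ℝ) * v))) *
    (t ^ ((1 / 2 : ℝ) - 1) * Real.exp (-((k : ℝ) * v * t))) := by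
  unfold K
  have : Real.exp (-((k : ℝ) * (1 + t) * v)) = Real.exp (-((k : ℝ) * v)) * Real.exp (-((k : ℝ) * v * t)) := by
    rw [← Real.exp_add]; congr 1; ring
  rw [this]; ring

/-- `∫ kap(v) v^{-1/2} e^{-kv}` -/
noncomputable def J (k : ℕ) : ℝ := ∫ v in Ioi (0 : ℝ), kap v * (v ^ (-(1 / 2) : ℝ) * Real.exp (-((k : ℝ) * v)))

lemma J_int {k : ℕ} (hk : 1 ≤ k) :
    IntegrableOn (fun v => kap v * (v ^ (-(1 / 2) : ℝ) * Real.exp (-((k : ℝ) * v)))) (Ioi 0) := by
  have hk' : (0 : ℝ) < k := by exact_mod_cast hk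
  have h1 := integrableOn_rpow_mul_exp_neg_mul_rpow (p := 1) (s := (-(1 / 2) : ℝ)) (b := k)
    (by norm_num) one_pos hk'
  have h2 : IntegrableOn (fun v : ℝ => v ^ (-(1 / 2) : ℝ) * Real.exp (-((k : ℝ) * v))) (Ioi 0) := by
    refine h1.congr_fun (fun v _ => ?_) measurableSet_Ioi
    simp only [Real.rpow_one, neg_mul]
  refine Integrable.mono' h2 ?_ ?_
  · exact (kap_meas.mul (by fun_prop)).aestronglyMeasurable
  · filter_upwards [ae_restrict_mem measurableSet_Ioi] with v hv
    have hv' : (0 : ℝ) < v := hv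
    have h3 : 0 ≤ v ^ (-(1 / 2) : ℝ) * Real.exp (-((k : ℝ) * v)) :=
      mul_nonneg (Real.rpow_nonneg hv'.le _) (Real.exp_pos _).le
    rw [Real.norm_of_nonneg (mul_nonneg (kap_nonneg v) h3)]
    have := kap_le_one v
    nlinarith

lemma t_int {k : ℕ} (hk : 1 ≤ k) {v : ℝ} (hv : 0 < v) :
    IntegrableOn (fun t => t ^ ((1 / 2 : ℝ) - 1) * Real.exp (-((k : ℝ) * v * t))) (Ioi 0) := by
  have hk' : (0 : ℝ) < k := by exact_mod_cast hk
  have h1 := integrableOn_rpow_mul_exp_neg_mul_rpow (p := 1) (s := ((1 / 2 : ℝ) - 1)) (b := k * v)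
    (by norm_num) one_pos (by positivity)
  refine h1.congr_fun (fun t _ => ?_) measurableSet_Ioi
  simp only [Real.rpow_one, neg_mul]

lemma t_val {k : ℕ} (hk : 1 ≤ k) {v : ℝ} (hv : 0 < v) :
    ∫ t in Ioi (0 : ℝ), K k t v = (Real.sqrt Real.pi / Real.sqrt k) *
      (kap v * (v ^ (-(1 / 2) : ℝ) * Real.exp (-((k : ℝ) * v)))) := by
  have hk' : (0 : ℝ) < k := by exact_mod_cast hk
  simp only [K_eq]
  rw [integral_const_mul, Real.integral_rpow_mul_exp_neg_mul_Ioi (by norm_num) (by positivity),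
    Real.Gamma_one_half_eq]
  have : (1 / ((k : ℝ) * v)) ^ (1 / 2 : ℝ) = 1 / Real.sqrt k * v ^ (-(1 / 2) : ℝ) := by
    rw [one_div, Real.inv_rpow (by positivity), Real.mul_rpow hk'.le hv.le, Real.rpow_neg hv.le,
      Real.sqrt_eq_rpow, mul_inv]
    simp only [one_div]
  rw [this]
  ring

lemma K_int {k : ℕ} (hk : 1 ≤ k) : Integrable (Function.uncurry (K k))
    ((volume.restrict (Ioi (0 : ℝ))).prod (volume.restrict (Ioi (0 : ℝ)))) := by
  have hmeas : Measurable (Function.uncurry (K k)) := by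
    unfold K Function.uncurry
    have := kap_meas
    fun_prop
  rw [integrable_prod_iff' hmeas.aestronglyMeasurable]
  constructor
  · filter_upwards [ae_restrict_mem measurableSet_Ioi] with v hv
    simp only [Function.uncurry_apply_pair, K_eq]
    exact (t_int hk hv).const_mul _
  · have h1 := (J_int hk).const_mul (Real.sqrt Real.pi / Real.sqrt k)
    refine h1.congr ?_
    filter_upwards [ae_restrict_mem measurableSet_Ioi] with v hv
    simp only [Function.uncurry_apply_pair]
    rw [← t_val hk hv]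
    apply setIntegral_congr_fun measurableSet_Ioi
    intro t ht
    have ht' : (0 : ℝ) < t := ht
    simp only
    rw [Real.norm_of_nonneg]
    unfold K
    exact mul_nonneg (Real.rpow_nonneg ht'.le _) (mul_nonneg (kap_nonneg v) (Real.exp_pos _).le)

/-- the sequence `√k J_k` satisfies the test -/
lemma good_main : GoodC (fun k : ℕ => Real.sqrt Real.pi * (Real.sqrt k * J k)) := by
  have h1 := goodC_integral (μ := volume.restrict (Ioi (0 : ℝ)))
    (f := fun t (k : ℕ) => (t ^ ((1 / 2 : ℝ) - 1) * (1 / (1 + t))) * (((k : ℝ) * (1 + t)) *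
      ∫ v in Ioi (0 : ℝ), kap v * Real.exp (-((k : ℝ) * (1 + t) * v)))) (fun k => by
      rcases Nat.eq_zero_or_pos k with rfl | hk
      · simp
      have h2 := ((K_int hk).integral_prod_left).const_mul (k : ℝ)
      refine h2.congr ?_
      filter_upwards [ae_restrict_mem measurableSet_Ioi] with t ht
      have ht' : (0 : ℝ) < t := ht
      simp only [Function.uncurry_apply_pair, K]
      rw [integral_const_mul]
      have : 1 + t ≠ 0 := by positivity
      field_simp) (by
      filter_upwards [ae_restrict_mem measurableSet_Ioi] with t ht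
      have ht' : (0 : ℝ) < t := ht
      exact goodC_const_mul (inner_good (by positivity : 0 < 1 + t))
        (mul_nonneg (Real.rpow_nonneg ht'.le _) (by positivity)))
  have h2 : (fun k : ℕ => Real.sqrt Real.pi * (Real.sqrt k * J k)) = fun k : ℕ =>
      ∫ t in Ioi (0 : ℝ), (t ^ ((1 / 2 : ℝ) - 1) * (1 / (1 + t))) * (((k : ℝ) * (1 + t)) *
      ∫ v in Ioi (0 : ℝ), kap v * Real.exp (-((k : ℝ) * (1 + t) * v))) := by
    funext k
    rcases Nat.eq_zero_or_pos k with rfl | hk
    · simp
    have hk' : (0 : ℝ) < k := by exact_mod_cast hk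
    have h3 : ∫ t in Ioi (0 : ℝ), (t ^ ((1 / 2 : ℝ) - 1) * (1 / (1 + t))) * (((k : ℝ) * (1 + t)) *
      ∫ v in Ioi (0 : ℝ), kap v * Real.exp (-((k : ℝ) * (1 + t) * v))) =
        ∫ t in Ioi (0 : ℝ), (k : ℝ) * ∫ v in Ioi (0 : ℝ), K k t v := by
      apply setIntegral_congr_fun measurableSet_Ioi
      intro t ht
      have ht' : (0 : ℝ) < t := ht
      simp only [K]
      rw [integral_const_mul]
      have : 1 + t ≠ 0 := by positivity
      field_simp
    rw [h3, integral_const_mul, integral_integral_swap (K_int hk),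
      setIntegral_congr_fun measurableSet_Ioi (fun v hv => t_val hk hv), integral_const_mul]
    unfold J
    have h4 : (k : ℝ) = Real.sqrt k * Real.sqrt k := (Real.mul_self_sqrt hk'.le).symm
    have h5 : Real.sqrt (k : ℝ) ≠ 0 := (Real.sqrt_pos.2 hk').ne'
    generalize (∫ v in Ioi (0 : ℝ), kap v * (v ^ (-(1 / 2) : ℝ) * Real.exp (-((k : ℝ) * v)))) = JJ
    have h6 : (k : ℝ) * (Real.sqrt Real.pi / Real.sqrt k * JJ) =
      (Real.sqrt k * Real.sqrt k) * (Real.sqrt Real.pi / Real.sqrt k * JJ) := by rw [← h4]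
    rw [h6]
    field_simp
  rw [h2]
  exact h1

/-! ### the values of `J` -/

lemma kap_w {v : ℝ} (hv : 0 < v) : kap v * v ^ (-(1 / 2) : ℝ) = 1 / Real.sqrt (Real.exp v - 1) := by
  rw [kap_pos hv, Real.sqrt_div hv.le, Real.rpow_neg hv.le, Real.sqrt_eq_rpow v]
  have : v ^ (1 / 2 : ℝ) ≠ 0 := (Real.rpow_pos_of_pos hv _).ne'
  field_simp

lemma J_rec {k : ℕ} (hk : 1 ≤ k) : ((k : ℝ) + 1) * J (k + 1) = ((k : ℝ) + 1 / 2) * J k := by
  have hint : IntegrableOn (fun v => ((k : ℝ) + 1) * (kap v * (v ^ (-(1 / 2) : ℝ) *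
      Real.exp (-(((k + 1 : ℕ) : ℝ) * v)))) - ((k : ℝ) + 1 / 2) *
        (kap v * (v ^ (-(1 / 2) : ℝ) * Real.exp (-((k : ℝ) * v))))) (Ioi 0) :=
    ((J_int (by omega : 1 ≤ k + 1)).const_mul _).sub ((J_int hk).const_mul _)
  have h1 : ∫ v in Ioi (0 : ℝ), (((k : ℝ) + 1) * (kap v * (v ^ (-(1 / 2) : ℝ) *
      Real.exp (-(((k + 1 : ℕ) : ℝ) * v)))) - ((k : ℝ) + 1 / 2) *
        (kap v * (v ^ (-(1 / 2) : ℝ) * Real.exp (-((k : ℝ) * v))))) =
      0 - Real.sqrt (Real.exp 0 - 1) * Real.exp (-(((k : ℝ) + 1) * 0)) := by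
    apply integral_Ioi_of_hasDerivAt_of_tendsto
      (f := fun v => Real.sqrt (Real.exp v - 1) * Real.exp (-(((k : ℝ) + 1) * v)))
    · exact (by fun_prop : Continuous fun v : ℝ => Real.sqrt (Real.exp v - 1) *
        Real.exp (-(((k : ℝ) + 1) * v))).continuousWithinAt
    · intro v hv
      have hv' : (0 : ℝ) < v := hv
      have h0 := exp_sub_pos hv'
      have e1 : HasDerivAt (fun v : ℝ => Real.exp v - 1) (Real.exp v) v :=
        (Real.hasDerivAt_exp v).sub_const 1
      have e2 : HasDerivAt (fun v : ℝ => -(((k : ℝ) + 1) * v)) (-((k : ℝ) + 1)) v := by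
        have := (hasDerivAt_id v).const_mul (-((k : ℝ) + 1))
        simp only [id, mul_one, neg_mul] at this
        exact this
      refine ((e1.sqrt h0.ne').mul e2.exp).congr_deriv ?_
      have e3 : ∀ y : ℝ, kap v * (v ^ (-(1 / 2) : ℝ) * y) = y / Real.sqrt (Real.exp v - 1) := by
        intro y
        rw [← mul_assoc, kap_w hv']; ring
      rw [e3, e3]
      have e4 : Real.exp (-((k : ℝ) * v)) = Real.exp v * Real.exp (-(((k : ℝ) + 1) * v)) := by
        rw [← Real.exp_add]; congr 1; ring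
      have e5 : Real.exp (-(((k + 1 : ℕ) : ℝ) * v)) = Real.exp (-(((k : ℝ) + 1) * v)) := by
        push_cast; rfl
      rw [e4, e5]
      set S := Real.sqrt (Real.exp v - 1) with hS
      have hS0 : S ≠ 0 := (Real.sqrt_pos.2 h0).ne'
      have hS2 : Real.exp v = S * S + 1 := by
        rw [hS, Real.mul_self_sqrt h0.le]; ring
      rw [hS2]
      field_simp
      ring
    · exact hint
    · have h2 : Tendsto (fun v : ℝ => Real.exp (-(1 / 2 * v))) atTop (𝓝 0) := by
        apply Real.tendsto_exp_atBot.comp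
        apply tendsto_neg_atTop_atBot.comp
        exact tendsto_id.const_mul_atTop (by norm_num)
      refine squeeze_zero_norm' ?_ h2
      filter_upwards [eventually_gt_atTop 0] with v hv
      rw [Real.norm_of_nonneg (mul_nonneg (Real.sqrt_nonneg _) (Real.exp_pos _).le)]
      have h3 : Real.sqrt (Real.exp v - 1) ≤ Real.exp (1 / 2 * v) := by
        rw [Real.sqrt_le_left (Real.exp_pos _).le, sq, ← Real.exp_add]
        have : 1 / 2 * v + 1 / 2 * v = v := by ring
        rw [this]; linarith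
      have h4 : Real.exp (-(((k : ℝ) + 1) * v)) ≤ Real.exp (-v) := by
        apply Real.exp_le_exp.2
        have : (0 : ℝ) ≤ k := Nat.cast_nonneg k
        nlinarith
      calc _ ≤ Real.exp (1 / 2 * v) * Real.exp (-v) :=
            mul_le_mul h3 h4 (Real.exp_pos _).le (Real.exp_pos _).le
        _ = _ := by rw [← Real.exp_add]; congr 1; ring
  rw [Real.exp_zero, sub_self, Real.sqrt_zero, zero_mul, sub_zero,
    integral_sub ((J_int (by omega : 1 ≤ k + 1)).const_mul _) ((J_int hk).const_mul _),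
    integral_const_mul, integral_const_mul] at h1
  unfold J
  linarith

lemma J_one_pos : 0 < J 1 := by
  unfold J
  rw [setIntegral_pos_iff_support_of_nonneg_ae _ (J_int le_rfl)]
  · have : Ioi (0 : ℝ) ⊆ (Function.support fun v => kap v * (v ^ (-(1 / 2) : ℝ) *
        Real.exp (-(((1 : ℕ) : ℝ) * v)))) ∩ Ioi 0 := by
      intro v hv
      have hv' : (0 : ℝ) < v := hv
      refine ⟨?_, hv⟩
      have h1 := kap_ge hv'.le
      have h2 := Real.exp_pos (-v)
      have h3 : 0 < v ^ (-(1 / 2) : ℝ) := Real.rpow_pos_of_pos hv' _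
      exact (mul_pos (by linarith) (mul_pos h3 (Real.exp_pos _))).ne'
    refine lt_of_lt_of_le ?_ (measure_mono this)
    simp
  · filter_upwards [ae_restrict_mem measurableSet_Ioi] with v hv
    have hv' : (0 : ℝ) < v := hv
    exact mul_nonneg (kap_nonneg v) (mul_nonneg (Real.rpow_nonneg hv'.le _) (Real.exp_pos _).le)

lemma J_val (k : ℕ) : J (k + 1) = 2 * J 1 * (((2 * (k + 1)).factorial : ℝ) /
    (((k + 1).factorial : ℝ) ^ 2 * 4 ^ (k + 1))) := by
  induction k with
  | zero => norm_num [Nat.factorial]; ring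
  | succ k ih =>
    have h1 := J_rec (k := k + 1) (by omega)
    rw [ih] at h1
    have h2 : (((k + 1 : ℕ) : ℝ) + 1) ≠ 0 := by positivity
    have h3 : J (k + 1 + 1) = (((k + 1 : ℕ) : ℝ) + 1 / 2) * (2 * J 1 * (((2 * (k + 1)).factorial : ℝ) /
        (((k + 1).factorial : ℝ) ^ 2 * 4 ^ (k + 1)))) / (((k + 1 : ℕ) : ℝ) + 1) := by
      rw [eq_div_iff h2, ← h1]; ring
    rw [h3, show 2 * (k + 1 + 1) = (2 * (k + 1) + 1) + 1 by ring, Nat.factorial_succ (2 * (k + 1) + 1),
      Nat.factorial_succ (2 * (k + 1)), Nat.factorial_succ (k + 1), pow_succ (4 : ℝ) (k + 1)]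
    have h4 : ((k + 1).factorial : ℝ) ≠ 0 := by positivity
    push_cast
    field_simp
    ring

lemma J_nonneg (k : ℕ) : 0 ≤ Real.sqrt k * J k := by
  rcases k with _ | k
  · simp
  · rw [J_val]
    have := J_one_pos
    positivity

lemma ms_main : MS (fun k => Real.sqrt k / (k.factorial : ℝ)) := by
  have h1 := ms_of_goodC good_main (by simp) (fun k => mul_nonneg (Real.sqrt_nonneg _) (J_nonneg k))
    (by
      have := J_one_pos
      have h2 : 0 < Real.sqrt Real.pi := Real.sqrt_pos.2 Real.pi_pos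
      simp only [Nat.cast_one, Real.sqrt_one, one_mul]
      positivity)
  have h2 := ms_const_mul (ms_mul h1 (ms_pow 4)) (1 / (Real.sqrt Real.pi * (2 * J 1)))
  have e : (fun k : ℕ => Real.sqrt k / (k.factorial : ℝ)) = fun k : ℕ =>
      1 / (Real.sqrt Real.pi * (2 * J 1)) * (((k.factorial : ℝ) *
        (Real.sqrt Real.pi * (Real.sqrt k * J k) / ((2 * k).factorial : ℝ))) * 4 ^ k) := by
    funext k
    rcases k with _ | k
    · simp
    · rw [J_val k]
      have h3 : ((k + 1).factorial : ℝ) ≠ 0 := by positivity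
      have h4 : ((2 * (k + 1)).factorial : ℝ) ≠ 0 := by positivity
      have h5 := J_one_pos
      have h6 : 0 < Real.sqrt Real.pi := Real.sqrt_pos.2 Real.pi_pos
      have h7 : (4 : ℝ) ^ (k + 1) ≠ 0 := by positivity
      field_simp
  rw [e]
  exact h2

lemma T_eq (p : ℝ[X]) : T p = hm (fun k => Real.sqrt k / (k.factorial : ℝ)) p := by
  unfold T hm
  apply Finset.sum_congr rfl
  intro k _
  rw [C_mul_X_pow_eq_monomial]

/-- `√k / k!` is a multiplier sequence: if `p` is a real polynomial with only real zeros, then `T p`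
is zero or has only real zeros (it is zero exactly when `p` is constant). -/
theorem result : ∀ p : ℝ[X], p ≠ 0 → (∀ z : ℂ, aeval z p = 0 → z.im = 0) →
    (T p = 0 ↔ p.natDegree = 0) ∧ (T p ≠ 0 → ∀ z : ℂ, aeval z (T p) = 0 → z.im = 0) := by
  intro p hp0 hp
  have h3 := ms_main p (Or.inr hp)
  rw [← T_eq] at h3
  refine ⟨⟨?_, ?_⟩, fun hne => h3.resolve_left hne⟩
  · intro h
    have h2 : (T p).coeff p.natDegree = 0 := by rw [h, coeff_zero]
    rw [T_eq, coeff_hm] at h2
    rcases mul_eq_zero.1 h2 with h4 | h4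
    · have h5 : (p.natDegree.factorial : ℝ) ≠ 0 := by positivity
      rcases div_eq_zero_iff.1 h4 with h6 | h6
      · rw [Real.sqrt_eq_zero (Nat.cast_nonneg _)] at h6
        exact_mod_cast h6
      · exact absurd h6 h5
    · exact absurd (leadingCoeff_eq_zero.1 h4) hp0
  · intro h
    rw [T, h]
    simp

end Pool.Agent.Results.MP_21a1fd_an.SqrtSequence
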